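import Mathlib
import Pool.Agent.Y99.ZS.AllGroups

/-!
# The exact value `f(k) = ⌊k²/2⌋ + 1` for all large `k`, for all abelian groups

The starting theorem `Asymptotic` says that `f(k) / (k²/2)` tends to `1`. Here `f(k)` is determined
exactly for all large `k`, and the lower bound is proved for zero-sum-free sets in arbitrary abelian
groups, infinite ones included, with one threshold for all of them.
-/

set_option autoImplicit false

namespace Pool.Agent.Results.MP_0b126a_co.ExactAllGroups

universe u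

/-- The set of sums of the nonempty subsets of `S` (each element used at most once). -/
def Sums {G : Type u} [AddCommGroup G] (S : Finset G) : Set G :=
  {s | ∃ B : Finset G, B ⊆ S ∧ B.Nonempty ∧ ∑ b ∈ B, b = s}

/-- `S` is zero-sum-free: no nonempty subset of `S` has sum zero. -/
def ZeroSumFree {G : Type u} [AddCommGroup G] (S : Finset G) : Prop := (0 : G) ∉ Sums S

/-- All values taken by the number of nonempty subset sums of `S`, as `S` runs over the
zero-sum-free `k`-element subsets of all finite abelian groups. -/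
def values (k : ℕ) : Set ℕ :=
  {n | ∃ (G : Type) (_ : AddCommGroup G) (_ : Finite G) (S : Finset G),
    S.card = k ∧ ZeroSumFree S ∧ (Sums S).ncard = n}

/-- `f(k)`: the minimum number of nonempty subset sums of a zero-sum-free `k`-element set. -/
noncomputable def f (k : ℕ) : ℕ := sInf (values k)

theorem exists_value_le (k : ℕ) : ∃ n ∈ values k, n ≤ k ^ 2 / 2 + 1 := by
  classical
  obtain ⟨A, hA, hA2, hA3⟩ := Pool.Agent.Helper398.example_upper k
  have h0 : (0 : ZMod (k ^ 2 + 1) × ZMod 2) ∉ Sums A := by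
    rintro ⟨B, hB, hne, hs⟩
    exact hA2 B hB hne hs
  have h1 := Pool.Agent.Helper398.ncard_bridge A (Sums A) (fun s => Iff.rfl) h0
  exact ⟨(Sums A).ncard, ⟨ZMod (k ^ 2 + 1) × ZMod 2, inferInstance, inferInstance, A, hA, h0,
    rfl⟩, by omega⟩

/-- **The exact value of `f(k)` for all large `k`, in all abelian groups.** There is `M` such that
for all `k ≥ M` the minimum `f(k)` is attained and equals `⌊k²/2⌋ + 1`, and every zero-sum-free
`k`-element subset of every abelian group, finite or infinite, has at least `⌊k²/2⌋ + 1` distinct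
nonempty subset sums. -/
theorem result : ∃ M : ℕ, ∀ k : ℕ, M ≤ k →
    f k = k ^ 2 / 2 + 1 ∧ k ^ 2 / 2 + 1 ∈ values k ∧
    ∀ (G : Type u) [AddCommGroup G] (S : Finset G), S.card = k → ZeroSumFree S →
      k ^ 2 / 2 + 1 ≤ (Sums S).ncard := by
  obtain ⟨M₁, hM₁⟩ := Pool.Agent.Y99.ZS.exact_ncard.{0}
  obtain ⟨M₂, hM₂⟩ := Pool.Agent.Y99.ZS.exact_ncard.{u}
  refine ⟨max M₁ M₂, fun k hk => ?_⟩
  have hk1 : M₁ ≤ k := (le_max_left _ _).trans hk
  have hk2 : M₂ ≤ k := (le_max_right _ _).trans hk
  have hlow : ∀ n ∈ values k, k ^ 2 / 2 + 1 ≤ n := by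
    rintro n ⟨G, _, _, S, hS, hZ, rfl⟩
    have h1 := hM₁ G S (Sums S) (fun s => Iff.rfl) hZ (by omega)
    rwa [hS] at h1
  obtain ⟨n, hn, hn2⟩ := exists_value_le k
  have hmem : k ^ 2 / 2 + 1 ∈ values k := by
    have h1 : n = k ^ 2 / 2 + 1 := le_antisymm hn2 (hlow n hn)
    rwa [← h1]
  refine ⟨le_antisymm (Nat.sInf_le hmem) (le_csInf ⟨_, hmem⟩ hlow), hmem, ?_⟩
  intro G _ S hS hZ
  have h1 := hM₂ G S (Sums S) (fun s => Iff.rfl) hZ (by omega)
  rwa [hS] at h1

end Pool.Agent.Results.MP_0b126a_co.ExactAllGroups
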